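import Mathlib

/-!
General definitions: `p^{-1}`-linear maps (elements of `Hom_R(F_*R, R)`), generators of
`Hom_R(F_*R, R)` as an `F_*R`-module, fixed ideals, trace ideals, and Gorenstein rings.
-/

set_option autoImplicit false

namespace Pool.Agent.MP3a4337

universe u v

/-- `φ` is an element of `Hom_R(F_*R, R)`: it is additive and `φ (r ^ p * s) = r * φ s`. -/
def IsCartierMap (p : ℕ) (R : Type u) [CommRing R] (φ : R →+ R) : Prop :=
  ∀ r s : R, φ (r ^ p * s) = r * φ s

/-- `Φ` generates `Hom_R(F_*R, R)` as an `F_*R`-module: every `φ` in `Hom_R(F_*R, R)` is of the form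
`x ↦ Φ (s * x)`. -/
def IsCartierGenerator (p : ℕ) (R : Type u) [CommRing R] (Φ : R →+ R) : Prop :=
  IsCartierMap p R Φ ∧
    ∀ φ : R →+ R, IsCartierMap p R φ → ∃ s : R, ∀ x : R, φ x = Φ (s * x)

/-- The ideal `I` is fixed: `Spec R` is covered by basic open sets `D(f)` on each of which
`Hom(F_*R_f, R_f)` has a generator `Φ`, and `Φ (F_* I_f) = I_f`. -/
def IsFixedIdeal (p : ℕ) (R : Type u) [CommRing R] (I : Ideal R) : Prop :=
  ∃ s : Set R, Ideal.span s = ⊤ ∧ ∀ f ∈ s,
    ∃ Φ : Localization.Away f →+ Localization.Away f,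
      IsCartierGenerator p (Localization.Away f) Φ ∧
      Φ '' (I.map (algebraMap R (Localization.Away f)) : Set (Localization.Away f)) =
        (I.map (algebraMap R (Localization.Away f)) : Set (Localization.Away f))

/-- The trace ideal of `R → S`: the image of `Hom_R(S, R) → R`, `f ↦ f 1`. -/
def traceIdeal (R : Type u) (S : Type v) [CommRing R] [CommRing S] [Algebra R S] : Ideal R where
  carrier := {r | ∃ f : S →ₗ[R] R, f 1 = r}
  zero_mem' := ⟨0, rfl⟩
  add_mem' := by
    rintro _ _ ⟨f, rfl⟩ ⟨g, rfl⟩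
    exact ⟨f + g, rfl⟩
  smul_mem' := by
    rintro c _ ⟨f, rfl⟩
    exact ⟨c • f, rfl⟩

/-- `R` is a Gorenstein ring (of finite Krull dimension): it is Noetherian and has finite injective
dimension as a module over itself. -/
def IsGorensteinRing (R : Type u) [CommRing R] : Prop :=
  IsNoetherianRing R ∧ ∃ n : ℕ, CategoryTheory.HasInjectiveDimensionLE (ModuleCat.of R R) n

end Pool.Agent.MP3a4337
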