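import Pool.Agent.MP_3a4337_ag.Domain
import Pool.Agent.MP_3a4337_ag.Defs

/-!
The generator of `Hom(F_*R, R)` for the ring `TR`, and F-finiteness.
-/

set_option autoImplicit false

namespace Pool.Agent.MP3a4337

open Polynomial

/-- extraction of the coefficients with exponent divisible by three -/
noncomputable def kap (a : A) : A := contract 3 a

/-- extraction of the coefficients with exponent congruent to two modulo three -/
noncomputable def T (a : A) : A := contract 3 (divX (divX a))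

/-- extraction of the coefficients with exponent congruent to one modulo three -/
noncomputable def psi (a : A) : A := contract 3 (divX a)

lemma kap_add (a b : A) : kap (a + b) = kap a + kap b := contract_add three_ne_zero a b

lemma kap_cube (g a : A) : kap (g ^ 3 * a) = g * kap a := by
  unfold kap
  rw [mul_comm, ← ZMod.expand_card, contract_mul_expand three_ne_zero, mul_comm]

lemma coeff_kap (a : A) (n : ℕ) : (kap a).coeff n = a.coeff (n * 3) := coeff_contract three_ne_zero a n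

lemma coeff_T (a : A) (n : ℕ) : (T a).coeff n = a.coeff (n * 3 + 2) := by
  unfold T
  rw [coeff_contract three_ne_zero, coeff_divX, coeff_divX]

lemma coeff_psi (a : A) (n : ℕ) : (psi a).coeff n = a.coeff (n * 3 + 1) := by
  unfold psi
  rw [coeff_contract three_ne_zero, coeff_divX]

lemma X_mul_T (a : A) : X * T a = kap (X * a) := by
  ext n
  rw [coeff_kap]
  cases n with
  | zero => simp
  | succ n =>
    rw [coeff_X_mul, coeff_T, show (n + 1) * 3 = (n * 3 + 2) + 1 by ring, coeff_X_mul]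

lemma X_mul_psi (a : A) : X * psi a = kap (X ^ 2 * a) := by
  ext n
  rw [coeff_kap]
  cases n with
  | zero => simp
  | succ n =>
    rw [coeff_X_mul, coeff_psi, show (n + 1) * 3 = (n * 3 + 1) + 2 by ring, coeff_X_pow_mul]

lemma T_add (a b : A) : T (a + b) = T a + T b := by
  ext n
  simp [coeff_T]

lemma T_cube (g a : A) : T (g ^ 3 * a) = g * T a := by
  apply mul_left_cancel₀ (X_ne_zero (R := ZMod 3))
  rw [X_mul_T, show X * (g ^ 3 * a) = g ^ 3 * (X * a) by ring, kap_cube, ← X_mul_T]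
  ring

lemma decompA (a : A) : a = kap a ^ 3 + psi a ^ 3 * X + T a ^ 3 * X ^ 2 := by
  rw [← ZMod.expand_card, ← ZMod.expand_card, ← ZMod.expand_card]
  ext n
  rw [coeff_add, coeff_add]
  have h3 : n % 3 = 0 ∨ n % 3 = 1 ∨ n % 3 = 2 := by omega
  rcases h3 with h | h | h
  · obtain ⟨m, rfl⟩ : ∃ m, n = 3 * m := ⟨n / 3, by omega⟩
    have h1 : (expand (ZMod 3) 3 (psi a) * X).coeff (3 * m) = 0 := by
      cases m with
      | zero => simp
      | succ m =>
        rw [show 3 * (m + 1) = (3 * m + 2) + 1 by ring, coeff_mul_X, coeff_expand (by norm_num)]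
        rw [if_neg (by omega)]
    have h2 : (expand (ZMod 3) 3 (T a) * X ^ 2).coeff (3 * m) = 0 := by
      cases m with
      | zero => simp
      | succ m =>
        rw [show 3 * (m + 1) = (3 * m + 1) + 2 by ring, coeff_mul_X_pow, coeff_expand (by norm_num)]
        rw [if_neg (by omega)]
    rw [h1, h2, coeff_expand (by norm_num), if_pos (by omega), coeff_kap]
    rw [add_zero, add_zero]
    congr 1
    omega
  · obtain ⟨m, rfl⟩ : ∃ m, n = 3 * m + 1 := ⟨n / 3, by omega⟩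
    have h2 : (expand (ZMod 3) 3 (T a) * X ^ 2).coeff (3 * m + 1) = 0 := by
      cases m with
      | zero => simp [coeff_mul_X_pow']
      | succ m =>
        rw [show 3 * (m + 1) + 1 = (3 * m + 2) + 2 by ring, coeff_mul_X_pow,
          coeff_expand (by norm_num)]
        rw [if_neg (by omega)]
    rw [h2, coeff_mul_X, coeff_expand (by norm_num), if_neg (by omega), coeff_expand (by norm_num),
      if_pos (by omega), coeff_psi, zero_add, add_zero]
    congr 1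
    omega
  · obtain ⟨m, rfl⟩ : ∃ m, n = 3 * m + 2 := ⟨n / 3, by omega⟩
    rw [coeff_mul_X_pow, show 3 * m + 2 = (3 * m + 1) + 1 by ring, coeff_mul_X,
      coeff_expand (by norm_num), if_neg (by omega), coeff_expand (by norm_num), if_neg (by omega),
      coeff_expand (by norm_num), if_pos (by omega), coeff_T, zero_add, zero_add]
    congr 1
    omega

lemma T_one : T 1 = 0 := by
  ext n; rw [coeff_T, coeff_one, if_neg (by omega)]; simp

lemma T_X : T X = 0 := by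
  ext n; rw [coeff_T, coeff_X, if_neg (by omega)]; simp

lemma T_X2 : T (X ^ 2) = 1 := by
  ext n
  rw [coeff_T, coeff_X_pow, coeff_one]
  by_cases h : n = 0 <;> simp [h]

/-- every additive map `θ : A → A` with `θ (g^3 a) = g θ(a)` is of the form `a ↦ T (a u)` -/
lemma exists_rep (θ : A →+ A) (hθ : ∀ g a, θ (g ^ 3 * a) = g * θ a) :
    ∃ u : A, ∀ a, θ a = T (a * u) := by
  refine ⟨θ 1 ^ 3 * X ^ 2 + θ X ^ 3 * X + θ (X ^ 2) ^ 3, fun a => ?_⟩
  have h0 : ∀ g : A, θ (g ^ 3) = g * θ 1 := fun g => by simpa using hθ g 1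
  have hT0 : T (1 * (θ 1 ^ 3 * X ^ 2 + θ X ^ 3 * X + θ (X ^ 2) ^ 3)) = θ 1 := by
    rw [one_mul, T_add, T_add, T_cube, T_cube, T_X2, T_X,
      show θ (X ^ 2) ^ 3 = θ (X ^ 2) ^ 3 * 1 by ring, T_cube, T_one]
    ring
  have hT1 : T (X * (θ 1 ^ 3 * X ^ 2 + θ X ^ 3 * X + θ (X ^ 2) ^ 3)) = θ X := by
    rw [show X * (θ 1 ^ 3 * X ^ 2 + θ X ^ 3 * X + θ (X ^ 2) ^ 3) =
      θ 1 ^ 3 * (X ^ 3 * 1) + θ X ^ 3 * X ^ 2 + θ (X ^ 2) ^ 3 * X by ring,
      T_add, T_add]
    simp only [T_cube, T_X2, T_X, T_one]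
    ring
  have hT2 : T (X ^ 2 * (θ 1 ^ 3 * X ^ 2 + θ X ^ 3 * X + θ (X ^ 2) ^ 3)) = θ (X ^ 2) := by
    rw [show X ^ 2 * (θ 1 ^ 3 * X ^ 2 + θ X ^ 3 * X + θ (X ^ 2) ^ 3) =
      θ 1 ^ 3 * (X ^ 3 * X) + θ X ^ 3 * (X ^ 3 * 1) + θ (X ^ 2) ^ 3 * X ^ 2 by ring,
      T_add, T_add]
    simp only [T_cube, T_X2, T_X, T_one]
    ring
  set u := θ 1 ^ 3 * X ^ 2 + θ X ^ 3 * X + θ (X ^ 2) ^ 3 with hu
  conv_lhs => rw [decompA a]
  conv_rhs => rw [decompA a]
  rw [map_add, map_add, h0, hθ, hθ,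
    show (kap a ^ 3 + psi a ^ 3 * X + T a ^ 3 * X ^ 2) * u =
      kap a ^ 3 * (1 * u) + psi a ^ 3 * (X * u) + T a ^ 3 * (X ^ 2 * u) by ring,
    T_add, T_add, T_cube, T_cube, T_cube, hT0, hT1, hT2]

lemma kap_zero : kap 0 = 0 := by
  ext n; rw [coeff_kap]; simp

lemma T_zero : T 0 = 0 := by
  ext n; rw [coeff_T]; simp

lemma T_X2_mul (b : A) : T (X ^ 2 * b) = kap b := by
  ext n; rw [coeff_T, coeff_kap, coeff_X_pow_mul]

/-- the generator of `Hom(F_*R, R)` -/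
noncomputable def Phi : TR →+ TR where
  toFun r := ⟨kap (X ^ 2 * r.a) - X * kap (X * r.b) + X ^ 2 * kap r.c,
    kap r.b + kap (X ^ 2 * r.c), T r.c⟩
  map_zero' := by
    ext1 <;> simp [TR.zero_a, TR.zero_b, TR.zero_c, kap_zero, T_zero]
  map_add' r s := by
    ext1
    · simp only [TR.add_a, TR.add_b, TR.add_c, mul_add, kap_add]; ring
    · simp only [TR.add_b, TR.add_c, mul_add, kap_add]; ring
    · simp only [TR.add_c, T_add]

lemma Phi_a (r : TR) : (Phi r).a = kap (X ^ 2 * r.a) - X * kap (X * r.b) + X ^ 2 * kap r.c := rfl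
lemma Phi_b (r : TR) : (Phi r).b = kap r.b + kap (X ^ 2 * r.c) := rfl
lemma Phi_c (r : TR) : (Phi r).c = T r.c := rfl

lemma Phi_ofA (g : A) (s : TR) : Phi (TR.ofA g ^ 3 * s) = TR.ofA g * Phi s := by
  have h : TR.ofA g ^ 3 = TR.ofA (g ^ 3) := by rw [map_pow]
  rw [h]
  have ha : (TR.ofA (g ^ 3) * s).a = g ^ 3 * s.a := by
    simp only [TR.mul_a, TR.ofA_a, TR.ofA_b, TR.ofA_c]; ring
  have hb : (TR.ofA (g ^ 3) * s).b = g ^ 3 * s.b := by
    simp only [TR.mul_b, TR.ofA_a, TR.ofA_b, TR.ofA_c]; ring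
  have hc : (TR.ofA (g ^ 3) * s).c = g ^ 3 * s.c := by
    simp only [TR.mul_c, TR.ofA_a, TR.ofA_b, TR.ofA_c]; ring
  ext1
  · rw [Phi_a, ha, hb, hc, show X ^ 2 * (g ^ 3 * s.a) = g ^ 3 * (X ^ 2 * s.a) by ring,
      show X * (g ^ 3 * s.b) = g ^ 3 * (X * s.b) by ring, kap_cube, kap_cube, kap_cube]
    simp only [TR.mul_a, TR.ofA_a, TR.ofA_b, TR.ofA_c, Phi_a]
    ring
  · rw [Phi_b, hb, hc, show X ^ 2 * (g ^ 3 * s.c) = g ^ 3 * (X ^ 2 * s.c) by ring,
      kap_cube, kap_cube]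
    simp only [TR.mul_b, TR.ofA_a, TR.ofA_b, TR.ofA_c, Phi_b]
    ring
  · rw [Phi_c, hc, T_cube]
    simp only [TR.mul_c, TR.ofA_a, TR.ofA_b, TR.ofA_c, Phi_c]
    ring

lemma y_cube : TR.y ^ 3 = ⟨X ^ 4, X ^ 2, 0⟩ := by
  have : TR.y ^ 3 = TR.y * TR.y * TR.y := by ring
  rw [this, TR.yy]
  ext1 <;> simp only [TR.mul_a, TR.mul_b, TR.mul_c, TR.y_a, TR.y_b, TR.y_c] <;> ring

lemma Phi_y (s : TR) : Phi (TR.y ^ 3 * s) = TR.y * Phi s := by
  rw [y_cube]
  have ha : ((⟨X ^ 4, X ^ 2, 0⟩ : TR) * s).a = X ^ 4 * s.a + X ^ 6 * s.c := by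
    simp only [TR.mul_a]; ring
  have hb : ((⟨X ^ 4, X ^ 2, 0⟩ : TR) * s).b = X ^ 4 * s.b + X ^ 2 * s.a + X ^ 4 * s.c := by
    simp only [TR.mul_b]; ring
  have hc : ((⟨X ^ 4, X ^ 2, 0⟩ : TR) * s).c = X ^ 4 * s.c + X ^ 2 * s.b := by
    simp only [TR.mul_c]; ring
  ext1
  · rw [Phi_a, ha, hb, hc,
      show (X : A) ^ 2 * (X ^ 4 * s.a + X ^ 6 * s.c) =
        X ^ 3 * (X ^ 3 * s.a) + X ^ 3 * (X ^ 3 * (X ^ 2 * s.c)) by ring,
      show (X : A) * (X ^ 4 * s.b + X ^ 2 * s.a + X ^ 4 * s.c) =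
        X ^ 3 * (X ^ 2 * s.b) + X ^ 3 * s.a + X ^ 3 * (X ^ 2 * s.c) by ring,
      show (X : A) ^ 4 * s.c + X ^ 2 * s.b = X ^ 3 * (X * s.c) + X ^ 2 * s.b by ring]
    simp only [kap_add, kap_cube, ← X_mul_T]
    simp only [TR.mul_a, TR.y_a, TR.y_b, TR.y_c, Phi_a, Phi_b, Phi_c]
    ring
  · rw [Phi_b, hb, hc,
      show (X : A) ^ 4 * s.b + X ^ 2 * s.a + X ^ 4 * s.c =
        X ^ 3 * (X * s.b) + X ^ 2 * s.a + X ^ 3 * (X * s.c) by ring,
      show (X : A) ^ 2 * (X ^ 4 * s.c + X ^ 2 * s.b) =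
        X ^ 3 * (X ^ 3 * s.c) + X ^ 3 * (X * s.b) by ring]
    simp only [kap_add, kap_cube]
    simp only [TR.mul_b, TR.y_a, TR.y_b, TR.y_c, Phi_a, Phi_b, Phi_c]
    rw [← X_mul_T s.c]
    linear_combination (X * kap (X * s.b)) * three_eq_zero
  · rw [Phi_c, hc, show (X : A) ^ 4 * s.c + X ^ 2 * s.b = X ^ 3 * (X * s.c) + X ^ 2 * s.b by ring,
      T_add, T_cube, T_X2_mul, X_mul_T, show X * (X * s.c) = X ^ 2 * s.c by ring]
    simp only [TR.mul_c, TR.y_a, TR.y_b, TR.y_c, Phi_a, Phi_b, Phi_c]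
    ring

lemma cube_add (r s : TR) : (r + s) ^ 3 = r ^ 3 + s ^ 3 := add_pow_char r s 3

lemma Phi_cartier : IsCartierMap 3 TR Phi := by
  intro r s
  rw [TR.decomp r, cube_add, cube_add]
  set a := TR.ofA r.a
  set b := TR.ofA r.b
  set c := TR.ofA r.c
  have h1 : (a ^ 3 + (b * TR.y) ^ 3 + (c * (TR.y * TR.y)) ^ 3) * s =
      a ^ 3 * s + b ^ 3 * (TR.y ^ 3 * s) + c ^ 3 * (TR.y ^ 3 * (TR.y ^ 3 * s)) := by ring
  rw [h1, map_add, map_add, Phi_ofA, Phi_ofA, Phi_ofA, Phi_y, Phi_y, Phi_y]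
  ring

lemma c_y_mul (v : TR) : (TR.y * v).c = v.b := by
  simp only [TR.mul_c, TR.y_a, TR.y_b, TR.y_c]; ring

lemma c_yy_mul (v : TR) : (TR.y * (TR.y * v)).c = v.a + X ^ 2 * v.c := by
  simp only [TR.mul_c, TR.mul_b, TR.y_a, TR.y_b, TR.y_c]; ring

lemma eq_of_c (v w : TR) (h : ∀ t : TR, (t * v).c = (t * w).c) : v = w := by
  have h1 := h 1
  rw [one_mul, one_mul] at h1
  have h2 := h TR.y
  rw [c_y_mul, c_y_mul] at h2
  have h3 := h (TR.y * TR.y)
  rw [mul_assoc, mul_assoc, c_yy_mul, c_yy_mul, h1] at h3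
  ext1
  · exact add_right_cancel h3
  · exact h2
  · exact h1

lemma exists_u (φ : TR →+ TR) (hφ : IsCartierMap 3 TR φ) (v : TR) :
    ∃ u : A, ∀ a : A, (φ (TR.ofA a * v)).c = T (a * u) := by
  refine exists_rep (AddMonoidHom.mk' (fun a => (φ (TR.ofA a * v)).c) ?_) ?_
  · intro a b
    rw [RingHom.map_add, add_mul, map_add, TR.add_c]
  · intro g a
    have e : TR.ofA (g ^ 3 * a) * v = TR.ofA g ^ 3 * (TR.ofA a * v) := by
      rw [RingHom.map_mul, RingHom.map_pow, mul_assoc]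
    show (φ (TR.ofA (g ^ 3 * a) * v)).c = g * (φ (TR.ofA a * v)).c
    rw [e, hφ]
    simp only [TR.mul_c, TR.ofA_a, TR.ofA_b, TR.ofA_c]
    ring

lemma c_formula (φ : TR →+ TR) (u0 u1 u2 : A)
    (hu0 : ∀ a : A, (φ (TR.ofA a * 1)).c = T (a * u0))
    (hu1 : ∀ a : A, (φ (TR.ofA a * TR.y)).c = T (a * u1))
    (hu2 : ∀ a : A, (φ (TR.ofA a * (TR.y * TR.y))).c = T (a * u2)) (s : TR) :
    (φ s).c = T (((⟨u2 - X ^ 2 * u0, u1, u0⟩ : TR) * s).c) := by
  have hs : s = TR.ofA s.a * 1 + TR.ofA s.b * TR.y + TR.ofA s.c * (TR.y * TR.y) := by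
    rw [mul_one]; exact TR.decomp s
  have h1 : (φ s).c = (φ (TR.ofA s.a * 1)).c + (φ (TR.ofA s.b * TR.y)).c
      + (φ (TR.ofA s.c * (TR.y * TR.y))).c := by
    rw [← TR.add_c, ← TR.add_c, ← map_add, ← map_add, ← hs]
  rw [h1, hu0, hu1, hu2, ← T_add, ← T_add, TR.mul_c]
  congr 1
  ring

lemma Phi_generator : IsCartierGenerator 3 TR Phi := by
  refine ⟨Phi_cartier, fun φ hφ => ?_⟩
  obtain ⟨u0, hu0⟩ := exists_u φ hφ 1
  obtain ⟨u1, hu1⟩ := exists_u φ hφ TR.y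
  obtain ⟨u2, hu2⟩ := exists_u φ hφ (TR.y * TR.y)
  have hc := c_formula φ u0 u1 u2 hu0 hu1 hu2
  generalize (⟨u2 - X ^ 2 * u0, u1, u0⟩ : TR) = s0 at hc
  refine ⟨s0, fun x => eq_of_c _ _ fun t => ?_⟩
  have e1 : (t * φ x).c = (φ (t ^ 3 * x)).c := by rw [hφ]
  have e2 : (t * Phi (s0 * x)).c = (Phi (t ^ 3 * (s0 * x))).c := by rw [Phi_cartier]
  have e3 : t ^ 3 * (s0 * x) = s0 * (t ^ 3 * x) := by ring
  rw [e1, e2, hc, e3, Phi_c]

lemma finite_of_generators {R S : Type*} [CommRing R] [CommRing S] (f : R →+* S) (t : Finset S)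
    (h : ∀ s : S, ∃ c : S → R, s = ∑ b ∈ t, f (c b) * b) : f.Finite := by
  algebraize [f]
  refine ⟨⟨t, ?_⟩⟩
  rw [eq_top_iff]
  rintro s -
  obtain ⟨c, hc⟩ := h s
  rw [hc]
  refine Submodule.sum_mem _ fun b hb => ?_
  have : f (c b) * b = c b • b := by rw [Algebra.smul_def, RingHom.algebraMap_toAlgebra]
  rw [this]
  exact Submodule.smul_mem _ _ (Submodule.subset_span hb)

/-- `TR` is F-finite -/
lemma frob_finite : (frobenius TR 3).Finite := by
  classical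
  have hne1 : (1 : A) ≠ X := by
    intro h; have := congrArg (fun f => coeff f 0) h; simp at this
  have hne2 : (1 : A) ≠ X ^ 2 := by
    intro h; have := congrArg (fun f => coeff f 0) h; simp at this
  have hne3 : (X : A) ≠ X ^ 2 := by
    intro h; have := congrArg (fun f => coeff f 1) h; simp [coeff_X_pow] at this
  have hA : (frobenius A 3).Finite := by
    refine finite_of_generators _ {1, X, X ^ 2} fun a => ?_
    refine ⟨fun b => if b = 1 then kap a else if b = X then psi a else T a, ?_⟩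
    rw [Finset.sum_insert (by simp [hne1, hne2]), Finset.sum_insert (by simp [hne3]),
      Finset.sum_singleton]
    simp only [if_true, if_neg hne1.symm, if_neg hne2.symm, if_neg hne3.symm, frobenius_def]
    conv_lhs => rw [decompA a]
    ring
  have hB : (TR.ofA : A →+* TR).Finite := RingHom.finite_algebraMap.mpr
    (inferInstance : Module.Finite A TR)
  have hcomp : (frobenius TR 3).comp TR.ofA = (TR.ofA : A →+* TR).comp (frobenius A 3) := by
    apply RingHom.ext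
    intro a
    simp [frobenius_def]
  have : ((frobenius TR 3).comp TR.ofA).Finite := by
    rw [hcomp]
    exact hB.comp hA
  exact RingHom.Finite.of_comp_finite this

end Pool.Agent.MP3a4337
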