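import Pool.Agent.MP_3a4337_ag.Ring

/-!
The ring `TR` is a domain of characteristic three: it embeds into `F_3[t]` by `x = t^3 - t`,
`y = t^4 - t^2`.
-/

set_option autoImplicit false

namespace Pool.Agent.MP3a4337

open Polynomial

lemma three_eq_zero : (3 : A) = 0 := by
  have : ((3 : ℕ) : A) = 0 := CharP.cast_eq_zero A 3
  exact_mod_cast this

/-- image of `x` -/
noncomputable def P : A := X ^ 3 - X
/-- image of `y` -/
noncomputable def Q : A := X * P

lemma Q_rel : Q ^ 3 = P ^ 2 * Q + P ^ 4 := by
  have h : P + X = X ^ 3 := by unfold P; ring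
  unfold Q
  linear_combination (-P ^ 3) * h

/-- the embedding into the normalisation -/
noncomputable def emb : TR →+* A where
  toFun r := r.a.comp P + r.b.comp P * Q + r.c.comp P * Q ^ 2
  map_zero' := by simp [TR.zero_a, TR.zero_b, TR.zero_c]
  map_one' := by simp [TR.one_a, TR.one_b, TR.one_c]
  map_add' r s := by
    simp only [TR.add_a, TR.add_b, TR.add_c, add_comp]; ring
  map_mul' r s := by
    simp only [TR.mul_a, TR.mul_b, TR.mul_c, add_comp, mul_comp, pow_comp, X_comp]
    linear_combination (-(r.b.comp P * s.c.comp P + r.c.comp P * s.b.comp P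
      + r.c.comp P * s.c.comp P * Q)) * Q_rel

lemma comp_P_eq_zero (f : A) (h : f.comp P = 0) : f = 0 := by
  rcases comp_eq_zero_iff.mp h with h | ⟨_, h⟩
  · exact h
  · exfalso
    have h1 : P.coeff 3 = 1 := by
      unfold P
      simp [coeff_X]
    rw [h, coeff_C] at h1
    simp at h1

lemma P_shift (c : ZMod 3) : P.comp (X + C c) = P := by
  unfold P
  have h1 : (C c : A) ^ 3 = C c := by
    rw [← C_pow, ZMod.pow_card]
  simp only [sub_comp, pow_comp, X_comp]
  linear_combination h1 + (X ^ 2 * C c + X * C c ^ 2) * three_eq_zero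

lemma emb_injective : Function.Injective emb := by
  rw [injective_iff_map_eq_zero]
  intro r hr
  have h0 : r.a.comp P + r.b.comp P * (X * P) + r.c.comp P * (X * P) ^ 2 = 0 := hr
  have hsh : ∀ c : ZMod 3, r.a.comp P + r.b.comp P * ((X + C c) * P) +
      r.c.comp P * ((X + C c) * P) ^ 2 = 0 := by
    intro c
    have := congrArg (fun f => f.comp (X + C c)) h0
    simp only [add_comp, mul_comp, pow_comp, X_comp, comp_assoc, P_shift, zero_comp] at this
    exact this
  have h1 := hsh 1
  have h2 := hsh (-1)
  rw [C_neg, C_1] at h2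
  rw [C_1] at h1
  have hP : P ≠ 0 := by
    intro h
    have h1 : P.coeff 3 = 1 := by
      unfold P
      simp [coeff_X]
    rw [h] at h1
    simp at h1
  have hc : r.c.comp P * P ^ 2 = 0 := by
    linear_combination (r.c.comp P * P ^ 2) * three_eq_zero - (h1 + h2 - 2 * h0)
  have hc' : r.c.comp P = 0 := by
    rcases mul_eq_zero.mp hc with h | h
    · exact h
    · exact absurd h (pow_ne_zero 2 hP)
  have hb : r.b.comp P * P = 0 := by
    rw [hc'] at h0 h1
    linear_combination h1 - h0
  have hb' : r.b.comp P = 0 := by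
    rcases mul_eq_zero.mp hb with h | h
    · exact h
    · exact absurd h hP
  have ha' : r.a.comp P = 0 := by
    rw [hc', hb'] at h0
    linear_combination h0
  ext1
  · exact comp_P_eq_zero _ ha'
  · exact comp_P_eq_zero _ hb'
  · exact comp_P_eq_zero _ hc'

instance : IsDomain TR := emb_injective.isDomain emb

instance : CharP TR 3 := charP_of_injective_ringHom (f := TR.ofA)
  (fun s t h => by simpa [TR.ofA] using congrArg TR.a h) 3

end Pool.Agent.MP3a4337
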