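import Pool.Agent.MP_3a4337_ag.Cartier

/-!
The ideal `(x, y^2)` of `TR` is fixed.
-/

set_option autoImplicit false

namespace Pool.Agent.MP3a4337

open Polynomial

/-- the ideal `(x, y^2)` -/
noncomputable def I0 : Ideal TR := Ideal.span {TR.ofA X, TR.y * TR.y}

lemma mem_I0 (r : TR) : r ∈ I0 ↔ (X ∣ r.a ∧ X ∣ r.b) := by
  unfold I0
  rw [Ideal.mem_span_pair]
  constructor
  · rintro ⟨c, d, rfl⟩
    rw [TR.yy]
    constructor
    · simp only [TR.add_a, TR.mul_a, TR.ofA_a, TR.ofA_b, TR.ofA_c]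
      exact ⟨c.a + X ^ 3 * d.b, by ring⟩
    · simp only [TR.add_b, TR.mul_b, TR.ofA_a, TR.ofA_b, TR.ofA_c]
      exact ⟨c.b + X * d.b + X ^ 3 * d.c, by ring⟩
  · rintro ⟨⟨a', ha⟩, ⟨b', hb⟩⟩
    refine ⟨⟨a', b', 0⟩, TR.ofA r.c, ?_⟩
    rw [TR.yy]
    ext1
    · simp only [TR.add_a, TR.mul_a, TR.ofA_a, TR.ofA_b, TR.ofA_c, ha]; ring
    · simp only [TR.add_b, TR.mul_b, TR.ofA_a, TR.ofA_b, TR.ofA_c, hb]; ring
    · simp only [TR.add_c, TR.mul_c, TR.ofA_a, TR.ofA_b, TR.ofA_c]; ring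

lemma kap_X3_mul (u : A) : kap (X ^ 3 * u) = X * kap u := kap_cube X u

lemma kap_one : kap 1 = 1 := by
  ext n
  rw [coeff_kap, coeff_one, coeff_one]
  by_cases h : n = 0 <;> simp [h]

lemma kap_X : kap X = 0 := by
  ext n
  rw [coeff_kap, coeff_X, if_neg (by omega)]; simp

lemma kap_X2 : kap (X ^ 2) = 0 := by
  ext n
  rw [coeff_kap, coeff_X_pow, if_neg (by omega)]; simp

lemma Phi_x : Phi (TR.ofA X) = TR.ofA X := by
  ext1
  · rw [Phi_a, TR.ofA_a, TR.ofA_b, TR.ofA_c, mul_zero, kap_zero,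
      show (X : A) ^ 2 * X = X ^ 3 * 1 by ring, kap_X3_mul, kap_one]
    ring
  · rw [Phi_b, TR.ofA_b, TR.ofA_c, mul_zero, kap_zero, add_zero]
  · rw [Phi_c, TR.ofA_c, T_zero]

lemma Phi_x2y2 : Phi (TR.ofA (X ^ 2) * (TR.y * TR.y)) = TR.y * TR.y := by
  have h : TR.ofA (X ^ 2) * (TR.y * TR.y) = ⟨0, 0, X ^ 2⟩ := by
    rw [TR.yy]
    ext1 <;> simp only [TR.mul_a, TR.mul_b, TR.mul_c, TR.ofA_a, TR.ofA_b, TR.ofA_c] <;> ring
  rw [h, TR.yy]
  ext1
  · rw [Phi_a]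
    simp only [mul_zero, kap_zero, kap_X2]; ring
  · rw [Phi_b]
    simp only [kap_zero]
    rw [show (X : A) ^ 2 * X ^ 2 = X ^ 3 * X by ring, kap_X3_mul, kap_X]; ring
  · rw [Phi_c, T_X2]

lemma Phi_image : Phi '' (I0 : Set TR) = (I0 : Set TR) := by
  apply Set.Subset.antisymm
  · rintro _ ⟨r, hr, rfl⟩
    rw [SetLike.mem_coe, mem_I0] at hr ⊢
    obtain ⟨⟨a', ha⟩, ⟨b', hb⟩⟩ := hr
    constructor
    · rw [Phi_a, ← X_mul_psi]
      exact ⟨psi r.a - kap (X * r.b) + X * kap r.c, by ring⟩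
    · rw [Phi_b, ← X_mul_psi, hb, ← X_mul_T]
      exact ⟨T b' + psi r.c, by ring⟩
  · intro r hr
    rw [SetLike.mem_coe, I0, Ideal.mem_span_pair] at hr
    obtain ⟨c, d, rfl⟩ := hr
    refine ⟨c ^ 3 * TR.ofA X + d ^ 3 * (TR.ofA (X ^ 2) * (TR.y * TR.y)), ?_, ?_⟩
    · refine Ideal.add_mem _ (Ideal.mul_mem_left _ _ ?_) (Ideal.mul_mem_left _ _
        (Ideal.mul_mem_left _ _ ?_))
      · exact Ideal.subset_span (by simp)
      · exact Ideal.subset_span (by simp)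
    · rw [map_add, Phi_cartier, Phi_cartier, Phi_x, Phi_x2y2]

/-- transport of generators along ring isomorphisms -/
lemma IsCartierGenerator.transport {p : ℕ} {R S : Type*} [CommRing R] [CommRing S] (e : R ≃+* S)
    {Φ : R →+ R} (h : IsCartierGenerator p R Φ) :
    IsCartierGenerator p S ((e : R →+* S).toAddMonoidHom.comp
      (Φ.comp (e.symm : S →+* R).toAddMonoidHom)) := by
  constructor
  · intro r s
    show e (Φ (e.symm (r ^ p * s))) = r * e (Φ (e.symm s))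
    rw [map_mul, map_pow, h.1, map_mul, e.apply_symm_apply]
  · intro φ hφ
    obtain ⟨s, hs⟩ := h.2 ((e.symm : S →+* R).toAddMonoidHom.comp
      (φ.comp (e : R →+* S).toAddMonoidHom)) (by
        intro r t
        show e.symm (φ (e (r ^ p * t))) = r * e.symm (φ (e t))
        rw [map_mul, map_pow, hφ, map_mul, e.symm_apply_apply])
    refine ⟨e s, fun x => ?_⟩
    have := hs (e.symm x)
    show φ x = e (Φ (e.symm (e s * x)))
    have h2 : e.symm (φ (e (e.symm x))) = Φ (s * e.symm x) := this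
    rw [map_mul, e.symm_apply_apply, ← h2, e.apply_symm_apply, e.apply_symm_apply]

/-- the ideal `(x, y^2)` is fixed -/
theorem I0_fixed : IsFixedIdeal 3 TR I0 := by
  refine ⟨{1}, by simp, ?_⟩
  rintro f rfl
  let e : TR ≃ₐ[TR] Localization.Away (1 : TR) := IsLocalization.atOne TR _
  have hmap : (I0.map (algebraMap TR (Localization.Away (1 : TR))) : Set _) =
      e '' (I0 : Set TR) := by
    ext z
    rw [SetLike.mem_coe, Ideal.mem_map_iff_of_surjective]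
    · constructor
      · rintro ⟨r, hr, rfl⟩
        exact ⟨r, hr, by rw [← e.commutes]; rfl⟩
      · rintro ⟨r, hr, rfl⟩
        exact ⟨r, hr, by rw [← e.commutes]; rfl⟩
    · intro z
      obtain ⟨r, rfl⟩ := e.surjective z
      exact ⟨r, by rw [← e.commutes]; rfl⟩
  refine ⟨_, Phi_generator.transport e.toRingEquiv, ?_⟩
  rw [hmap]
  have h2 : ∀ r : TR, e (Phi (e.symm (e r))) = e (Phi r) := fun r => by rw [e.symm_apply_apply]
  ext z
  constructor
  · rintro ⟨_, ⟨r, hr, rfl⟩, rfl⟩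
    refine ⟨Phi r, ?_, (h2 r).symm⟩
    rw [← Phi_image]
    exact ⟨r, hr, rfl⟩
  · rintro ⟨r, hr, rfl⟩
    rw [← Phi_image] at hr
    obtain ⟨s, hs, rfl⟩ := hr
    exact ⟨e s, ⟨s, hs, rfl⟩, h2 s⟩

end Pool.Agent.MP3a4337
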