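import Pool.Agent.MP_3a4337_ag.NotTrace

/-!
The ring `TR` is Gorenstein: its injective dimension over itself is at most one.
-/

set_option autoImplicit false

namespace Pool.Agent.MP3a4337

open Polynomial CategoryTheory

/-- divisible modules over the principal ideal domain `A` are injective -/
lemma injective_of_divisible (E : Type) [AddCommGroup E] [Module A E]
    (h : ∀ a : A, a ≠ 0 → ∀ m : E, ∃ m' : E, a • m' = m) : Module.Injective A E := by
  apply Module.Baer.injective
  intro I g
  obtain ⟨a, ha⟩ := (IsPrincipalIdealRing.principal I).principal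
  have haI : a ∈ I := by rw [ha]; exact Submodule.mem_span_singleton_self a
  by_cases h0 : a = 0
  · refine ⟨0, fun x hx => ?_⟩
    have hx0 : x = 0 := by
      rw [ha, h0] at hx
      simpa using hx
    subst hx0
    have : (⟨0, hx⟩ : I) = 0 := rfl
    rw [this, map_zero, map_zero]
  · obtain ⟨m', hm'⟩ := h a h0 (g ⟨a, haI⟩)
    refine ⟨LinearMap.toSpanSingleton A E m', fun x hx => ?_⟩
    obtain ⟨c, hc⟩ : ∃ c : A, c • a = x := by
      rw [ha] at hx
      exact Submodule.mem_span_singleton.mp hx
    have : (⟨x, hx⟩ : I) = c • ⟨a, haI⟩ := Subtype.ext hc.symm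
    rw [this, map_smul, ← hm', LinearMap.toSpanSingleton_apply, ← hc, smul_eq_mul, mul_smul]

section coind

variable (E : Type) [AddCommGroup E] [Module A E]

/-- coinduced module `Hom_A(R, E)` -/
def CoInd : Type := TR →ₗ[A] E

noncomputable instance : AddCommGroup (CoInd E) := inferInstanceAs (AddCommGroup (TR →ₗ[A] E))

/-- underlying linear map -/
def CoInd.fn {E : Type} [AddCommGroup E] [Module A E] (g : CoInd E) : TR →ₗ[A] E := g

noncomputable instance : SMul TR (CoInd E) :=
  ⟨fun r g => (g.fn.comp (LinearMap.mulLeft A r) : TR →ₗ[A] E)⟩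

variable {E}

lemma coind_ext {g h : CoInd E} (hgh : ∀ s, g.fn s = h.fn s) : g = h := LinearMap.ext hgh

lemma coind_smul (r : TR) (g : CoInd E) (s : TR) : (r • g).fn s = g.fn (r * s) := rfl

lemma coind_add (g h : CoInd E) (s : TR) : (g + h).fn s = g.fn s + h.fn s := rfl

lemma coind_zero (s : TR) : (0 : CoInd E).fn s = 0 := rfl

noncomputable instance : Module TR (CoInd E) where
  one_smul g := coind_ext fun s => by rw [coind_smul, one_mul]
  mul_smul r t g := coind_ext fun s => by
    have e : r * t * s = t * (r * s) := by ring
    rw [coind_smul, coind_smul, coind_smul, e]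
  smul_zero r := coind_ext fun s => by rw [coind_smul, coind_zero, coind_zero]
  smul_add r g h := coind_ext fun s => by
    rw [coind_smul, coind_add, coind_add, coind_smul, coind_smul]
  add_smul r t g := coind_ext fun s => by
    rw [coind_smul, coind_add, coind_smul, coind_smul, add_mul, map_add]
  zero_smul g := coind_ext fun s => by rw [coind_smul, zero_mul, map_zero, coind_zero]

lemma coind_injective (hE : Module.Injective A E) : Module.Injective TR (CoInd E) := by
  constructor
  intro V W _ _ _ _ f hf g
  let mV : Module A V := Module.compHom V TR.ofA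
  let mW : Module A W := Module.compHom W TR.ofA
  have tV : ∀ (a : A) (v : V), a • v = TR.ofA a • v := fun _ _ => rfl
  have tW : ∀ (a : A) (v : W), a • v = TR.ofA a • v := fun _ _ => rfl
  let f' : V →ₗ[A] W :=
    { toFun := f, map_add' := map_add f, map_smul' := fun a v => by
        rw [tV, tW, map_smul, RingHom.id_apply] }
  let g' : V →ₗ[A] E :=
    { toFun := fun v => (g v).fn 1
      map_add' := fun v w => by rw [map_add, coind_add]
      map_smul' := fun a v => by
        have h : TR.ofA a = a • (1 : TR) := by
          rw [Algebra.smul_def, mul_one]; rfl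
        rw [tV, map_smul, coind_smul, mul_one, RingHom.id_apply, h, map_smul] }
  obtain ⟨h', hh'⟩ := hE.out f' hf g'
  refine ⟨{ toFun := fun w => (show TR →ₗ[A] E from
              { toFun := fun s => h' (s • w)
                map_add' := fun s t => by rw [add_smul, map_add]
                map_smul' := fun a s => by
                  have h : (a • s) • w = a • (s • w) := by
                    rw [tW, Algebra.smul_def, mul_smul]; rfl
                  rw [h, map_smul, RingHom.id_apply] })
            map_add' := fun w w' => coind_ext fun s => by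
              show h' (s • (w + w')) = h' (s • w) + h' (s • w')
              rw [smul_add, map_add]
            map_smul' := fun r w => coind_ext fun s => by
              show h' (s • (r • w)) = h' ((r * s) • w)
              rw [← mul_smul, mul_comm] }, fun v => coind_ext fun s => ?_⟩
  show h' (s • f v) = (g v).fn s
  have h1 := hh' (s • v)
  have h2 : f' (s • v) = s • f v := f.map_smul s v
  rw [h2] at h1
  rw [h1]
  show (g (s • v)).fn 1 = (g v).fn s
  rw [map_smul, coind_smul, mul_one]

end coind

/-- the fraction field of `A` -/
abbrev K : Type := FractionRing A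

/-- the quotient `K / A` -/
abbrev KA : Type := K ⧸ LinearMap.range (Algebra.linearMap A K)

lemma K_injective : Module.Injective A K := by
  apply injective_of_divisible
  intro a ha m
  have ha' : algebraMap A K a ≠ 0 := by
    intro h
    exact ha ((IsFractionRing.injective A K) (by rw [h, map_zero]))
  refine ⟨(algebraMap A K a)⁻¹ * m, ?_⟩
  rw [Algebra.smul_def, ← mul_assoc, mul_inv_cancel₀ ha', one_mul]

lemma KA_injective : Module.Injective A KA := by
  apply injective_of_divisible
  intro a ha m
  obtain ⟨m, rfl⟩ := Submodule.mkQ_surjective _ m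
  have ha' : algebraMap A K a ≠ 0 := by
    intro h
    exact ha ((IsFractionRing.injective A K) (by rw [h, map_zero]))
  refine ⟨Submodule.mkQ _ ((algebraMap A K a)⁻¹ * m), ?_⟩
  rw [← map_smul, Algebra.smul_def, ← mul_assoc, mul_inv_cancel₀ ha', one_mul]

/-- the embedding `R → Hom_A(R, K)` -/
noncomputable def iota : TR →ₗ[TR] CoInd K where
  toFun r := (show TR →ₗ[A] K from
    { toFun := fun s => algebraMap A K ((r * s).c)
      map_add' := fun s t => by rw [mul_add, TR.add_c, map_add]
      map_smul' := fun a s => by
        rw [mul_smul_comm, TR.smul_c, map_mul, RingHom.id_apply, Algebra.smul_def] })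
  map_add' r t := coind_ext fun s => by
    show algebraMap A K (((r + t) * s).c) = algebraMap A K ((r * s).c) + algebraMap A K ((t * s).c)
    rw [add_mul, TR.add_c, map_add]
  map_smul' r t := coind_ext fun s => by
    have e : (r * t) * s = t * (r * s) := by ring
    show algebraMap A K (((r * t) * s).c) = algebraMap A K ((t * (r * s)).c)
    rw [e]

lemma iota_apply (r s : TR) : (iota r).fn s = algebraMap A K ((r * s).c) := rfl

lemma iota_injective : Function.Injective iota := by
  intro r t h
  apply eq_of_c
  intro s
  have h1 : (iota r).fn s = (iota t).fn s := by rw [h]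
  rw [iota_apply, iota_apply] at h1
  have h2 := (IsFractionRing.injective A K) h1
  rw [mul_comm s r, mul_comm s t]
  exact h2

/-- the map `Hom_A(R, K) → Hom_A(R, K/A)` -/
noncomputable def proj : CoInd K →ₗ[TR] CoInd KA where
  toFun g := (show TR →ₗ[A] KA from (Submodule.mkQ _).comp g.fn)
  map_add' g h := coind_ext fun s => by
    show Submodule.mkQ (LinearMap.range (Algebra.linearMap A K)) ((g + h).fn s) =
      Submodule.mkQ _ (g.fn s) + Submodule.mkQ _ (h.fn s)
    rw [coind_add, map_add]
  map_smul' r g := coind_ext fun s => rfl

lemma proj_apply (g : CoInd K) (s : TR) :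
    (proj g).fn s = Submodule.mkQ (LinearMap.range (Algebra.linearMap A K)) (g.fn s) := rfl

lemma proj_surjective : Function.Surjective proj := by
  intro g
  obtain ⟨h, hh⟩ := Module.projective_lifting_property
    (Submodule.mkQ (LinearMap.range (Algebra.linearMap A K))) g.fn (Submodule.mkQ_surjective _)
  exact ⟨(show TR →ₗ[A] K from h), coind_ext fun s => LinearMap.congr_fun hh s⟩

lemma exact_iota_proj : Function.Exact iota proj := by
  intro g
  constructor
  · intro h
    have h1 : ∀ s, ∃ a : A, algebraMap A K a = g.fn s := by
      intro s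
      have h2 : (proj g).fn s = 0 := by rw [h, coind_zero]
      rw [proj_apply, Submodule.mkQ_apply, Submodule.Quotient.mk_eq_zero] at h2
      exact h2
    obtain ⟨a0, h0⟩ := h1 1
    obtain ⟨a1, h1'⟩ := h1 TR.y
    obtain ⟨a2, h2⟩ := h1 (TR.y * TR.y)
    refine ⟨⟨a2 - X ^ 2 * a0, a1, a0⟩, coind_ext fun s => ?_⟩
    rw [iota_apply]
    have hs : s = s.a • (1 : TR) + s.b • TR.y + s.c • (TR.y * TR.y) := by
      conv_lhs => rw [TR.decomp s]
      rw [Algebra.smul_def, Algebra.smul_def, Algebra.smul_def, mul_one]
      rfl
    conv_rhs => rw [hs, map_add, map_add, map_smul, map_smul, map_smul, ← h0, ← h1', ← h2,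
      Algebra.smul_def, Algebra.smul_def, Algebra.smul_def, ← map_mul, ← map_mul, ← map_mul,
      ← map_add, ← map_add]
    congr 1
    rw [TR.mul_c]
    ring
  · rintro ⟨r, rfl⟩
    refine coind_ext fun s => ?_
    rw [proj_apply, coind_zero, Submodule.mkQ_apply, Submodule.Quotient.mk_eq_zero, iota_apply]
    exact ⟨(r * s).c, rfl⟩

/-- the ring `TR` has injective dimension at most one over itself -/
theorem TR_gorenstein : IsGorensteinRing TR := by
  refine ⟨inferInstance, 1, ?_⟩
  have hcomp : proj.comp iota = 0 := by
    apply LinearMap.ext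
    intro r
    exact (exact_iota_proj (iota r)).mpr ⟨r, rfl⟩
  let S : ShortComplex (ModuleCat.{0} TR) := ModuleCat.shortComplexOfCompEqZero iota proj hcomp
  have hS : S.ShortExact := ModuleCat.shortComplex_shortExact S exact_iota_proj iota_injective
    proj_surjective
  have h2 : Injective S.X₂ := (Module.injective_iff_injective_object TR (CoInd K)).mp
    (coind_injective K_injective)
  have h3 : Injective S.X₃ := (Module.injective_iff_injective_object TR (CoInd KA)).mp
    (coind_injective KA_injective)
  have h3' : HasInjectiveDimensionLT S.X₃ (0 + 1) := by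
    rw [zero_add]
    infer_instance
  exact (hS.hasInjectiveDimensionLT_X₃_iff 0 h2).mp h3'

end Pool.Agent.MP3a4337
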