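import Pool.Agent.MP_3a4337_ag.Fixed

/-!
The ideal `(x, y^2)` of `TR` is not the trace ideal of any finite extension.
-/

set_option autoImplicit false

namespace Pool.Agent.MP3a4337

open Polynomial

universe u

section

variable {S : Type u} [CommRing S] [Algebra TR S]

/-- the `R`-linear map attached to an `A`-linear functional (Gorenstein duality for `R/A`) -/
lemma exists_hom (φ : S →+ A)
    (hφ : ∀ (g : A) (s : S), φ (algebraMap TR S (TR.ofA g) * s) = g * φ s) :
    ∃ f : S →ₗ[TR] TR, ∀ s, (f s).b = φ (algebraMap TR S TR.y * s) ∧ (f s).c = φ s := by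
  let Y := algebraMap TR S TR.y
  have hY3 : ∀ s, φ (Y * (Y * (Y * s))) = X ^ 2 * φ (Y * s) + X ^ 4 * φ s := by
    intro s
    have h : TR.y ^ 3 = TR.ofA (X ^ 2) * TR.y + TR.ofA (X ^ 4) := by
      rw [y_cube]
      ext1 <;> simp only [TR.add_a, TR.add_b, TR.add_c, TR.mul_a, TR.mul_b, TR.mul_c, TR.ofA_a,
        TR.ofA_b, TR.ofA_c, TR.y_a, TR.y_b, TR.y_c] <;> ring
    have h2 : Y ^ 3 = algebraMap TR S (TR.ofA (X ^ 2)) * Y + algebraMap TR S (TR.ofA (X ^ 4)) := by
      show (algebraMap TR S TR.y) ^ 3 = _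
      rw [← map_pow, h, map_add, map_mul]
    have h3 : Y * (Y * (Y * s)) = algebraMap TR S (TR.ofA (X ^ 2)) * (Y * s) +
        algebraMap TR S (TR.ofA (X ^ 4)) * s := by
      calc Y * (Y * (Y * s)) = Y ^ 3 * s := by ring
        _ = _ := by rw [h2]; ring
    rw [h3, map_add, hφ, hφ]
  let F : S → TR := fun s => ⟨φ (Y * (Y * s)) - X ^ 2 * φ s, φ (Y * s), φ s⟩
  have hadd : ∀ s t, F (s + t) = F s + F t := by
    intro s t
    ext1
    · simp only [F, TR.add_a, mul_add, map_add]; ring
    · simp only [F, TR.add_b, mul_add, map_add]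
    · simp only [F, TR.add_c, map_add]
  have hsm : ∀ (g : A) (s : S), F (algebraMap TR S (TR.ofA g) * s) = TR.ofA g * F s := by
    intro g s
    have e1 : Y * (algebraMap TR S (TR.ofA g) * s) = algebraMap TR S (TR.ofA g) * (Y * s) := by ring
    have e2 : Y * (algebraMap TR S (TR.ofA g) * (Y * s)) =
      algebraMap TR S (TR.ofA g) * (Y * (Y * s)) := by ring
    ext1
    · simp only [F, TR.mul_a, TR.ofA_a, TR.ofA_b, TR.ofA_c, e1, e2, hφ]; ring
    · simp only [F, TR.mul_b, TR.ofA_a, TR.ofA_b, TR.ofA_c, e1, hφ]; ring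
    · simp only [F, TR.mul_c, TR.ofA_a, TR.ofA_b, TR.ofA_c, hφ]; ring
  have hy : ∀ s : S, F (Y * s) = TR.y * F s := by
    intro s
    ext1
    · simp only [F, TR.mul_a, TR.y_a, TR.y_b, TR.y_c, hY3]; ring
    · simp only [F, TR.mul_b, TR.y_a, TR.y_b, TR.y_c]; ring
    · simp only [F, TR.mul_c, TR.y_a, TR.y_b, TR.y_c]; ring
  refine ⟨{ toFun := F, map_add' := hadd, map_smul' := ?_ }, fun s => ⟨rfl, rfl⟩⟩
  intro r s
  rw [RingHom.id_apply, smul_eq_mul, Algebra.smul_def]
  have e : algebraMap TR S r * s = algebraMap TR S (TR.ofA r.a) * s +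
      algebraMap TR S (TR.ofA r.b) * (Y * s) + algebraMap TR S (TR.ofA r.c) * (Y * (Y * s)) := by
    conv_lhs => rw [TR.decomp r]
    rw [map_add, map_add, map_mul, map_mul, map_mul]
    ring
  rw [e, hadd, hadd, hsm, hsm, hsm, hy, hy, hy]
  conv_rhs => rw [TR.decomp r]
  ring

end

/-- no finite extension of `TR` has trace ideal `(x, y^2)` -/
theorem not_trace (S : Type u) [CommRing S] [Algebra TR S] [Module.Finite TR S] :
    traceIdeal TR S ≠ I0 := by
  intro heq
  -- `S` as a module over `A`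
  let algA : Algebra A S := ((algebraMap TR S).comp TR.ofA).toAlgebra
  have tower : IsScalarTower A TR S := IsScalarTower.of_algebraMap_eq' rfl
  have hfin : Module.Finite A S := Module.Finite.trans TR S
  have hsmul : ∀ (g : A) (s : S), g • s = algebraMap TR S (TR.ofA g) * s := fun g s => by
    rw [Algebra.smul_def]; rfl
  let N : Submodule A S := Submodule.torsion A S
  let b := Module.Free.chooseBasis A (S ⧸ N)
  have hfinb : Finite (Module.Free.ChooseBasisIndex A (S ⧸ N)) := inferInstance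
  -- every coordinate of `y` is divisible by `x`
  have hdiv : ∀ i, X ∣ b.repr (N.mkQ (algebraMap TR S TR.y)) i := by
    intro i
    let φ : S →ₗ[A] A := (b.coord i).comp N.mkQ
    obtain ⟨f, hf⟩ := exists_hom (φ : S →+ A) (fun g s => by
      have := φ.map_smul g s
      rw [hsmul, smul_eq_mul] at this
      exact this)
    have h1 : f 1 ∈ I0 := by rw [← heq]; exact ⟨f, rfl⟩
    rw [mem_I0] at h1
    have h2 := h1.2
    rw [(hf 1).1, mul_one] at h2
    exact h2
  -- hence `y` is divisible by `x` modulo torsion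
  obtain ⟨z, hz⟩ : ∃ z : S, algebraMap TR S TR.y - algebraMap TR S (TR.ofA X) * z ∈ N := by
    choose c hc using hdiv
    obtain ⟨z, hz⟩ := N.mkQ_surjective (∑ i, c i • b i)
    refine ⟨z, ?_⟩
    rw [← Submodule.ker_mkQ N, LinearMap.mem_ker, map_sub, ← hsmul, map_smul, hz, sub_eq_zero]
    conv_lhs => rw [← b.sum_repr (N.mkQ (algebraMap TR S TR.y))]
    rw [Finset.smul_sum]
    refine Finset.sum_congr rfl fun i _ => ?_
    rw [hc i, mul_smul]
  -- `y^2` is `x^2 z^2` modulo torsion
  set t : S := algebraMap TR S TR.y - algebraMap TR S (TR.ofA X) * z with ht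
  obtain ⟨a, ha⟩ := hz
  have hX : TR.ofA X ∈ I0 := Ideal.subset_span (by simp)
  rw [← heq] at hX
  obtain ⟨f, hf⟩ := hX
  have hft : ∀ s : S, (a : A) • s = 0 → f s = 0 := by
    intro s hs
    have h1 : TR.ofA (a : A) * f s = 0 := by
      rw [← smul_eq_mul, ← map_smul, Algebra.smul_def, ← hsmul, hs, map_zero]
    have h2 : TR.ofA (a : A) ≠ 0 := by
      intro h
      have := congrArg TR.a h
      exact nonZeroDivisors.ne_zero a.2 this
    exact (mul_eq_zero.mp h1).resolve_left h2
  have hat : (a : A) • t = 0 := ha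
  have hY : algebraMap TR S TR.y * algebraMap TR S TR.y =
      algebraMap TR S (TR.ofA X * TR.ofA X) * (z * z) +
        t * (2 * algebraMap TR S (TR.ofA X) * z + t) := by
    rw [ht, map_mul]; ring
  have h0 : f (t * (2 * algebraMap TR S (TR.ofA X) * z + t)) = 0 := by
    apply hft
    rw [← smul_mul_assoc, hat, zero_mul]
  have h1 := congrArg f hY
  have h5 : f (algebraMap TR S (TR.ofA X * TR.ofA X) * (z * z)) =
      TR.ofA X * TR.ofA X * f (z * z) := by
    rw [← Algebra.smul_def, map_smul, smul_eq_mul]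
  have h6 : algebraMap TR S TR.y * algebraMap TR S TR.y = algebraMap TR S (TR.y * TR.y) :=
    (map_mul _ _ _).symm
  rw [map_add, h0, add_zero, h5, h6] at h1
  have h2 : f (algebraMap TR S (TR.y * TR.y)) = TR.y * TR.y * TR.ofA X := by
    have : algebraMap TR S (TR.y * TR.y) = (TR.y * TR.y) • (1 : S) := by
      rw [Algebra.smul_def, mul_one]
    rw [this, map_smul, hf, smul_eq_mul]
  rw [h2] at h1
  have h3 := congrArg TR.c h1
  rw [TR.yy] at h3
  simp only [TR.mul_c, TR.mul_a, TR.mul_b, TR.ofA_a, TR.ofA_b, TR.ofA_c] at h3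
  have h4 : (X : A) * (1 - X * (f (z * z)).c) = 0 := by linear_combination h3
  rcases mul_eq_zero.mp h4 with h | h
  · exact X_ne_zero h
  · have := congrArg (fun q => coeff q 0) h
    simp at this

end Pool.Agent.MP3a4337
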