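import Mathlib

/-!
The plane curve ring `F_3[x, y] / (y^3 - x^2 y - x^4)`, realised as triples of polynomials in `x`
(the triple `(a, b, c)` stands for `a + b y + c y^2`).
-/

set_option autoImplicit false

namespace Pool.Agent.MP3a4337

open Polynomial

/-- the polynomial ring in one variable over the field with three elements -/
abbrev A : Type := (ZMod 3)[X]

/-- triples `a + b y + c y^2` with `y^3 = x^2 y + x^4` -/
@[ext] structure TR : Type where
  /-- constant coefficient -/
  a : A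
  /-- coefficient of `y` -/
  b : A
  /-- coefficient of `y^2` -/
  c : A

namespace TR

noncomputable instance : Zero TR := ⟨⟨0, 0, 0⟩⟩
noncomputable instance : One TR := ⟨⟨1, 0, 0⟩⟩
noncomputable instance : Add TR := ⟨fun r s => ⟨r.a + s.a, r.b + s.b, r.c + s.c⟩⟩
noncomputable instance : Neg TR := ⟨fun r => ⟨-r.a, -r.b, -r.c⟩⟩
noncomputable instance : Mul TR := ⟨fun r s =>
  ⟨r.a * s.a + X ^ 4 * (r.b * s.c + r.c * s.b),
   r.a * s.b + r.b * s.a + X ^ 2 * (r.b * s.c + r.c * s.b) + X ^ 4 * (r.c * s.c),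
   r.a * s.c + r.b * s.b + r.c * s.a + X ^ 2 * (r.c * s.c)⟩⟩

lemma zero_a : (0 : TR).a = 0 := rfl
lemma zero_b : (0 : TR).b = 0 := rfl
lemma zero_c : (0 : TR).c = 0 := rfl
lemma one_a : (1 : TR).a = 1 := rfl
lemma one_b : (1 : TR).b = 0 := rfl
lemma one_c : (1 : TR).c = 0 := rfl
lemma add_a (r s : TR) : (r + s).a = r.a + s.a := rfl
lemma add_b (r s : TR) : (r + s).b = r.b + s.b := rfl
lemma add_c (r s : TR) : (r + s).c = r.c + s.c := rfl
lemma neg_a (r : TR) : (-r).a = -r.a := rfl
lemma neg_b (r : TR) : (-r).b = -r.b := rfl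
lemma neg_c (r : TR) : (-r).c = -r.c := rfl
lemma mul_a (r s : TR) : (r * s).a = r.a * s.a + X ^ 4 * (r.b * s.c + r.c * s.b) := rfl
lemma mul_b (r s : TR) : (r * s).b =
  r.a * s.b + r.b * s.a + X ^ 2 * (r.b * s.c + r.c * s.b) + X ^ 4 * (r.c * s.c) := rfl
lemma mul_c (r s : TR) : (r * s).c =
  r.a * s.c + r.b * s.b + r.c * s.a + X ^ 2 * (r.c * s.c) := rfl

noncomputable instance : CommRing TR := CommRing.ofMinimalAxioms
  (by intro r s t; ext1 <;> simp only [add_a, add_b, add_c] <;> ring)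
  (by intro r; ext1 <;> simp only [add_a, add_b, add_c, zero_a, zero_b, zero_c] <;> ring)
  (by intro r; ext1 <;> simp only [add_a, add_b, add_c, zero_a, zero_b, zero_c, neg_a, neg_b, neg_c]
        <;> ring)
  (by intro r s t; ext1 <;> simp only [mul_a, mul_b, mul_c] <;> ring)
  (by intro r s; ext1 <;> simp only [mul_a, mul_b, mul_c] <;> ring)
  (by intro r; ext1 <;> simp only [mul_a, mul_b, mul_c, one_a, one_b, one_c] <;> ring)
  (by intro r s t; ext1 <;> simp only [mul_a, mul_b, mul_c, add_a, add_b, add_c] <;> ring)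

lemma sub_a (r s : TR) : (r - s).a = r.a - s.a := by
  rw [sub_eq_add_neg, add_a, neg_a]; ring
lemma sub_b (r s : TR) : (r - s).b = r.b - s.b := by
  rw [sub_eq_add_neg, add_b, neg_b]; ring
lemma sub_c (r s : TR) : (r - s).c = r.c - s.c := by
  rw [sub_eq_add_neg, add_c, neg_c]; ring

/-- the structure map -/
noncomputable def ofA : A →+* TR where
  toFun s := ⟨s, 0, 0⟩
  map_one' := rfl
  map_zero' := rfl
  map_add' s t := by ext1 <;> simp only [add_a, add_b, add_c] <;> ring
  map_mul' s t := by ext1 <;> simp only [mul_a, mul_b, mul_c] <;> ring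

lemma ofA_a (s : A) : (ofA s).a = s := rfl
lemma ofA_b (s : A) : (ofA s).b = 0 := rfl
lemma ofA_c (s : A) : (ofA s).c = 0 := rfl

noncomputable instance : SMul A TR := ⟨fun s r => ⟨s * r.a, s * r.b, s * r.c⟩⟩

lemma smul_a (s : A) (r : TR) : (s • r).a = s * r.a := rfl
lemma smul_b (s : A) (r : TR) : (s • r).b = s * r.b := rfl
lemma smul_c (s : A) (r : TR) : (s • r).c = s * r.c := rfl

noncomputable instance : Algebra A TR where
  algebraMap := ofA
  commutes' s r := mul_comm _ _
  smul_def' s r := by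
    ext1 <;> simp only [smul_a, smul_b, smul_c, mul_a, mul_b, mul_c, ofA_a, ofA_b, ofA_c] <;> ring

lemma algebraMap_eq (s : A) : algebraMap A TR s = ofA s := rfl

/-- coordinates -/
noncomputable def coord : TR ≃ₗ[A] A × A × A where
  toFun r := (r.a, r.b, r.c)
  invFun t := ⟨t.1, t.2.1, t.2.2⟩
  map_add' _ _ := rfl
  map_smul' _ _ := rfl
  left_inv _ := rfl
  right_inv _ := rfl

instance : Module.Finite A TR := Module.Finite.equiv coord.symm
instance : Module.Free A TR := Module.Free.of_equiv coord.symm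
instance : IsNoetherianRing TR := IsNoetherianRing.of_finite A TR

/-- the element `y` -/
noncomputable def y : TR := ⟨0, 1, 0⟩

lemma y_a : y.a = 0 := rfl
lemma y_b : y.b = 1 := rfl
lemma y_c : y.c = 0 := rfl

lemma yy : y * y = ⟨0, 0, 1⟩ := by
  ext1 <;> simp only [mul_a, mul_b, mul_c, y_a, y_b, y_c] <;> ring

lemma decomp (r : TR) : r = ofA r.a + ofA r.b * y + ofA r.c * (y * y) := by
  rw [yy]
  ext1 <;> simp only [mul_a, mul_b, mul_c, add_a, add_b, add_c, ofA_a, ofA_b, ofA_c, y_a, y_b, y_c]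
    <;> ring

end TR

end Pool.Agent.MP3a4337
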